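import Pool.Agent.H95.Clark

set_option autoImplicit false
open MeasureTheory Pool.Agent.H95.ClarkDefs

theorem Pool.Agent.Results.MP_3119c3_an.Cex.result : ∃ M : Matrix (Fin 3) (Fin 3) ℂ, M.IsSymm ∧
    (∃ (c : ℂ) (a : Fin 3 → ℂ) (φ : UnitAddCircle → ℂ) (e : Fin 3 → UnitAddCircle → ℂ),
      ‖c‖ = 1 ∧ (∀ k, ‖a k‖ < 1) ∧ MemLp φ ⊤ mC ∧ IsONB (blaschke c a) e ∧ ttoMatrix φ e = M) ∧
    ∀ (c : ℂ) (a : Fin 3 → ℂ) (φ : UnitAddCircle → ℂ) (e : Fin 3 → UnitAddCircle → ℂ),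
      ‖c‖ = 1 → (∀ k, ‖a k‖ < 1) → MemLp φ ⊤ mC → IsClark (blaschke c a) e → ttoMatrix φ e ≠ M :=
  Pool.Agent.H95.Clark.main
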